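import Pool.Agent.Q38.ZD.Sem

set_option autoImplicit false

/-!
# Project ZD (helper216), job SEL: the selection of markers is semi-decidable
-/

namespace Pool.Agent.Q38.ZD

open Encodable Pool.Agent.Helper227 Pool.Agent.H548R2.Post
open Nat.Partrec (Code)
open Pool.Agent.Q216.ZD
open Pool.Agent.TH769.TP (Via lab Unb)

attribute [local fun_prop] Primrec
attribute [local fun_prop] Primrec.id Primrec.const Primrec.comp Primrec.pair Primrec.fst Primrec.snd

section us

variable {L : ℕ} {T : ℕ → R → R}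

theorem us_ColP' (h : US fun X (x : List ℕ × ℕ × Bool) => Wd L x.1 ∧ act T x.1 X x.2.1 = x.2.2)
    {α : Type} [Primcodable α] {a : α → Code} {r : α → ℕ} {u : α → List ℕ} {c : α → ℕ}
    (ha : Primrec a) (hr : Primrec r) (hu : Primrec u) (hc : Primrec c) :
    US fun X x => ColP L T X (a x) (r x) (u x) (c x) :=
  (us_ColP h).comp (ha.pair (hr.pair (hu.pair hc)))

theorem us_OkP (h : US fun X (x : List ℕ × ℕ × Bool) => Wd L x.1 ∧ act T x.1 X x.2.1 = x.2.2) :
    US fun X (x : ((Code × ℕ) × List (List ℕ × ℕ × Bool)) × (List ℕ × ℕ × Bool)) =>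
      OkP L T X x.1.1.1 x.1.1.2 x.1.2 x.2 := by
  have hWL := pf_WL L
  unfold OkP
  refine US.and (us_ColP' h ?_ ?_ ?_ ?_) (US.and (US.of_prim (pp_Wd L ?_)) (US.or ?_ ?_))
  · fun_prop
  · fun_prop
  · fun_prop
  · fun_prop
  · fun_prop
  · refine US.and (US.of_prim (pg_eq ?_ ?_)) ?_
    · fun_prop
    · fun_prop
    · refine US.all_mem (P := fun X (x : ((Code × ℕ) × List (List ℕ × ℕ × Bool)) ×
        (List ℕ × ℕ × Bool)) (w : List ℕ) => _) ?_ (hWL.comp (by fun_prop))
      refine US.ex (P := fun X (x : (((Code × ℕ) × List (List ℕ × ℕ × Bool)) ×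
        (List ℕ × ℕ × Bool)) × List ℕ) (c' : ℕ) => _) ?_
      refine US.and (us_ColP' h ?_ ?_ (pg_append ?_ ?_) ?_)
        (US.or (US.of_prim (Primrec.nat_le.comp ?_ ?_))
          (US.of_prim (pg_mem (Primrec.pair (pg_append ?_ ?_) ?_) ?_))) <;> fun_prop
  · refine US.and (US.of_prim (pg_eq ?_ ?_)) ?_
    · fun_prop
    · fun_prop
    · refine US.ex_mem (P := fun X (x : ((Code × ℕ) × List (List ℕ × ℕ × Bool)) ×
        (List ℕ × ℕ × Bool)) (w : List ℕ) => _) ?_ (hWL.comp (by fun_prop))
      refine US.ex (P := fun X (x : (((Code × ℕ) × List (List ℕ × ℕ × Bool)) ×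
        (List ℕ × ℕ × Bool)) × List ℕ) (c' : ℕ) => _) ?_
      refine US.and (US.of_prim (Primrec.nat_lt.comp ?_ ?_))
        (US.and (us_ColP' h ?_ ?_ (pg_append ?_ ?_) ?_)
          (US.of_prim (pg_mem (Primrec.pair (pg_append ?_ ?_) ?_) ?_))) <;> fun_prop

theorem us_MkP (h : US fun X (x : List ℕ × ℕ × Bool) => Wd L x.1 ∧ act T x.1 X x.2.1 = x.2.2) :
    US fun X (x : (Code × ℕ) × List ℕ × Bool) => MkP L T X x.1.1 x.1.2 x.2.1 x.2.2 := by
  unfold MkP ValP
  refine US.ex (P := fun X (x : (Code × ℕ) × List ℕ × Bool)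
    (Lst : List (List ℕ × ℕ × Bool)) => _) ?_
  refine US.and ?_ ?_
  · refine US.all_mem (P := fun X (x : ((Code × ℕ) × List ℕ × Bool) × List (List ℕ × ℕ × Bool))
      (y : List ℕ × ℕ × Bool) => _) ?_ Primrec.snd
    exact (us_OkP h).comp (f := fun z : (((Code × ℕ) × List ℕ × Bool) ×
      List (List ℕ × ℕ × Bool)) × (List ℕ × ℕ × Bool) => ((z.1.1.1, z.1.2), z.2)) (by fun_prop)
  · refine US.ex (P := fun X (x : ((Code × ℕ) × List ℕ × Bool) × List (List ℕ × ℕ × Bool))
      (c : ℕ) => _) ?_
    refine US.of_prim (pg_mem ?_ ?_) <;> fun_prop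

theorem us_SelP (h : US fun X (x : List ℕ × ℕ × Bool) => Wd L x.1 ∧ act T x.1 X x.2.1 = x.2.2) :
    US fun X (x : Code × ℕ × List ℕ × List ℕ) => SelP L T X x := by
  have hWL := pf_WL L
  unfold SelP
  refine US.ex (P := fun X (x : Code × ℕ × List ℕ × List ℕ) (j : ℕ) => _) ?_
  refine US.and (US.of_prim (pg_eq (pg_getElem? (hWL.comp ?_) ?_) (Primrec.option_some.comp ?_)))
    (US.and ?_ ?_)
  · fun_prop
  · fun_prop
  · fun_prop
  · exact (us_MkP h).comp (f := fun z : (Code × ℕ × List ℕ × List ℕ) × ℕ =>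
      ((z.1.1, z.1.2.1), z.1.2.2.2 ++ z.1.2.2.1, true))
      (Primrec.pair (by fun_prop) (Primrec.pair (pg_append (by fun_prop) (by fun_prop))
        (by fun_prop)))
  · refine US.all_lt (P := fun X (y : (Code × ℕ × List ℕ × List ℕ) × ℕ) (i : ℕ) => _) ?_ (by fun_prop)
    refine US.ex (P := fun X (z : ((Code × ℕ × List ℕ × List ℕ) × ℕ) × ℕ) (w : List ℕ) => _) ?_
    refine US.and (US.of_prim (pg_eq (pg_getElem? (hWL.comp ?_) ?_)
      (Primrec.option_some.comp ?_))) ?_
    · fun_prop
    · fun_prop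
    · fun_prop
    · exact (us_MkP h).comp (f := fun z : (((Code × ℕ × List ℕ × List ℕ) × ℕ) × ℕ) × List ℕ =>
        ((z.1.1.1.1, z.1.1.1.2.1), z.2 ++ z.1.1.1.2.2.1, false))
        (Primrec.pair (by fun_prop) (Primrec.pair (pg_append (by fun_prop) (by fun_prop))
          (by fun_prop)))

end us

section correct

variable {L : ℕ} {T : ℕ → R → R} {a : Code} {Y : R}

theorem one_mem (hD : Dec L T a Y) {w u : List ℕ} (hw : Wd L w) (hu : Wd L u) :
    1 ∈ a.eval (encode w) ↔ act T w (act T u Y) = act T u Y := by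
  rw [hD w u hw hu 1]
  split_ifs with h <;> simp [h]

theorem zero_mem (hD : Dec L T a Y) {w u : List ℕ} (hw : Wd L w) (hu : Wd L u) :
    0 ∈ a.eval (encode w) ↔ act T w (act T u Y) ≠ act T u Y := by
  rw [hD w u hw hu 0]
  split_ifs with h <;> simp [h]

theorem colP_iff (hD : Dec L T a Y) {r : ℕ} {u : List ℕ} {c : ℕ} (hu : Wd L u) :
    ColP L T Y a r u c ↔ c = col L T r (act T u Y) := by
  constructor
  · rintro ⟨s, rfl, h2, h3, h4⟩
    have hs : s = pre (act T u Y) s.length := by
      rw [← eq_pre_iff]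
      intro i hi
      obtain ⟨b, h5, -, h6⟩ := h2 i hi
      exact ⟨b, h5, h6⟩
    have hmem : s.length ∈ {l | ∀ w ∈ WL L r, act T w (act T u Y) ≠ act T u Y →
        pre (act T w (act T u Y)) l ≠ pre (act T u Y) l} := by
      intro w hw hne
      have hw1 := (mem_WL.1 hw).1
      rcases h3 w hw with h5 | ⟨-, j, hj, b, ⟨-, h6⟩, -, h7⟩
      · exact absurd ((one_mem hD hw1 hu).1 h5) hne
      · intro h8
        rw [pre_eq_iff] at h8
        have h9 := h8 j hj
        rw [act_append] at h6
        rw [h6, h7] at h9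
        cases b <;> cases h9
    have hlen : len L T r (act T u Y) = s.length := by
      refine le_antisymm (Nat.sInf_le hmem) ?_
      by_contra hc
      push Not at hc
      obtain ⟨w, hw, h5, h6⟩ := h4 _ hc
      have hw1 := (mem_WL.1 hw).1
      refine len_spec r (act T u Y) w hw ((zero_mem hD hw1 hu).1 h5) ?_
      rw [pre_eq_iff]
      intro j hj
      obtain ⟨b, ⟨-, h7⟩, -, h8⟩ := h6 j hj
      rw [act_append] at h7
      rw [h7, h8]
    unfold col
    rw [hlen, ← hs]
  · rintro rfl
    refine ⟨pre (act T u Y) (len L T r (act T u Y)), rfl, ?_, ?_, ?_⟩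
    · intro i hi
      rw [length_pre] at hi
      exact ⟨_, pre_getElem? _ _ _ hi, hu, rfl⟩
    · intro w hw
      have hw1 := (mem_WL.1 hw).1
      by_cases h : act T w (act T u Y) = act T u Y
      · exact Or.inl ((one_mem hD hw1 hu).2 h)
      · refine Or.inr ⟨(zero_mem hD hw1 hu).2 h, ?_⟩
        have h1 := len_spec r (act T u Y) w hw h
        rw [Ne, pre_eq_iff] at h1
        push Not at h1
        obtain ⟨j, hj, h2⟩ := h1
        refine ⟨j, by rw [length_pre]; exact hj, act T (w ++ u) Y j, ⟨wd_append hw1 hu, rfl⟩, hu, ?_⟩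
        rw [act_append]
        revert h2
        cases act T w (act T u Y) j <;> cases act T u Y j <;> simp
    · intro l hl
      rw [length_pre] at hl
      have h1 := Nat.notMem_of_lt_sInf hl
      simp only [Set.mem_ofPred_eq] at h1
      push Not at h1
      obtain ⟨w, hw, h2, h3⟩ := h1
      have hw1 := (mem_WL.1 hw).1
      refine ⟨w, hw, (zero_mem hD hw1 hu).2 h2, fun j hj => ?_⟩
      rw [pre_eq_iff] at h3
      refine ⟨act T u Y j, ⟨wd_append hw1 hu, ?_⟩, hu, rfl⟩
      rw [act_append]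
      exact h3 j hj

theorem valid_sound (hD : Dec L T a Y) {r : ℕ} {Lst : List (List ℕ × ℕ × Bool)}
    (hV : ValP L T Y a r Lst) : ∀ (c : ℕ) (u : List ℕ) (b : Bool), (u, c, b) ∈ Lst →
      (b = true ↔ Mk L T r (act T u Y)) := by
  intro c
  induction c using Nat.strong_induction_on with
  | _ c ih =>
    intro u b hm
    obtain ⟨h1, hu, h2⟩ := hV _ hm
    simp only at h1 hu h2
    rw [colP_iff hD hu] at h1
    rcases h2 with ⟨rfl, h2⟩ | ⟨rfl, w, hw, c', hc', h3, h4⟩
    · simp only [true_iff]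
      rw [mk_iff]
      rintro Z ⟨w, hw, rfl⟩ hlt
      have hw1 := (mem_WL.1 hw).1
      obtain ⟨c', h3, h4⟩ := h2 w hw
      rw [colP_iff hD (wd_append hw1 hu), act_append] at h3
      rcases h4 with h4 | h4
      · omega
      · have h5 := ih c' (by omega) _ _ h4
        rw [act_append] at h5
        intro h6
        exact absurd (h5.2 h6) (by simp)
    · have hw1 := (mem_WL.1 hw).1
      rw [colP_iff hD (wd_append hw1 hu), act_append] at h3
      have h5 := (ih c' hc' _ _ h4).1 rfl
      rw [act_append] at h5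
      constructor
      · intro h
        cases h
      · intro h6
        exact absurd h5 (mk_iff.1 h6 _ ⟨w, hw, rfl⟩ (by omega))

theorem ok_mono {r : ℕ} {Lst Lst' : List (List ℕ × ℕ × Bool)} (h : ∀ x ∈ Lst, x ∈ Lst')
    {x : List ℕ × ℕ × Bool} (hx : OkP L T Y a r Lst x) : OkP L T Y a r Lst' x := by
  obtain ⟨h1, h2, h3⟩ := hx
  refine ⟨h1, h2, ?_⟩
  rcases h3 with ⟨h3, h4⟩ | ⟨h3, w, hw, c', h4, h5, h6⟩
  · refine Or.inl ⟨h3, fun w hw => ?_⟩
    obtain ⟨c', h5, h6⟩ := h4 w hw
    exact ⟨c', h5, h6.imp_right (h _)⟩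
  · exact Or.inr ⟨h3, w, hw, c', h4, h5, h _ h6⟩

theorem val_append {r : ℕ} {Lst Lst' : List (List ℕ × ℕ × Bool)} (h : ValP L T Y a r Lst)
    (h' : ValP L T Y a r Lst') : ValP L T Y a r (Lst ++ Lst') := by
  intro x hx
  rcases List.mem_append.1 hx with h1 | h1
  · exact ok_mono (fun y hy => List.mem_append_left _ hy) (h x h1)
  · exact ok_mono (fun y hy => List.mem_append_right _ hy) (h' x h1)

open Classical in
theorem valid_complete (hD : Dec L T a Y) {r : ℕ} : ∀ (c : ℕ) (u : List ℕ), Wd L u →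
    col L T r (act T u Y) = c → ∃ Lst, ValP L T Y a r Lst ∧
      (u, c, decide (Mk L T r (act T u Y))) ∈ Lst := by
  intro c
  induction c using Nat.strong_induction_on with
  | _ c ih =>
    intro u hu hc
    have h1 : ∀ W : List (List ℕ), (∀ w ∈ W, w ∈ WL L r) → ∃ Lst, ValP L T Y a r Lst ∧
        ∀ w ∈ W, col L T r (act T (w ++ u) Y) < c →
          (w ++ u, col L T r (act T (w ++ u) Y), decide (Mk L T r (act T (w ++ u) Y))) ∈ Lst := by
      intro W
      induction W with
      | nil =>
        intro _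
        exact ⟨[], fun x hx => absurd hx (by simp), fun w hw => absurd hw (by simp)⟩
      | cons v W ihW =>
        intro hW
        obtain ⟨Lst, h2, h3⟩ := ihW fun w hw => hW w (List.mem_cons_of_mem _ hw)
        by_cases hv : col L T r (act T (v ++ u) Y) < c
        · have hv1 := (mem_WL.1 (hW v (by simp))).1
          obtain ⟨Lst', h4, h5⟩ := ih _ hv (v ++ u) (wd_append hv1 hu) rfl
          refine ⟨Lst ++ Lst', val_append h2 h4, fun w hw hlt => ?_⟩
          rcases List.mem_cons.1 hw with rfl | h6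
          · exact List.mem_append_right _ h5
          · exact List.mem_append_left _ (h3 w h6 hlt)
        · refine ⟨Lst, h2, fun w hw hlt => ?_⟩
          rcases List.mem_cons.1 hw with rfl | h6
          · exact absurd hlt hv
          · exact h3 w h6 hlt
    obtain ⟨Lst, h2, h3⟩ := h1 (WL L r) fun w hw => hw
    refine ⟨(u, c, decide (Mk L T r (act T u Y))) :: Lst, ?_, by simp⟩
    intro x hx
    rcases List.mem_cons.1 hx with rfl | hx
    · refine ⟨(colP_iff hD hu).2 hc.symm, hu, ?_⟩
      simp only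
      by_cases hM : Mk L T r (act T u Y)
      · refine Or.inl ⟨by simpa using hM, fun w hw => ?_⟩
        have hw1 := (mem_WL.1 hw).1
        refine ⟨col L T r (act T (w ++ u) Y), (colP_iff hD (wd_append hw1 hu)).2 rfl, ?_⟩
        by_cases hlt : col L T r (act T (w ++ u) Y) < c
        · right
          have h4 := h3 w hw hlt
          have h5 : ¬ Mk L T r (act T (w ++ u) Y) := by
            rw [act_append] at hlt ⊢
            exact mk_iff.1 hM _ ⟨w, hw, rfl⟩ (by omega)
          have h6 : decide (Mk L T r (act T (w ++ u) Y)) = false := by simpa using h5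
          rw [h6] at h4
          exact List.mem_cons_of_mem _ h4
        · left
          omega
      · refine Or.inr ⟨by simpa using hM, ?_⟩
        have hM' := hM
        rw [mk_iff] at hM'
        push Not at hM'
        obtain ⟨Z, ⟨w, hw, rfl⟩, h4, h5⟩ := hM'
        have hw1 := (mem_WL.1 hw).1
        rw [← act_append] at h4 h5
        refine ⟨w, hw, col L T r (act T (w ++ u) Y), by omega,
          (colP_iff hD (wd_append hw1 hu)).2 rfl, ?_⟩
        have h6 := h3 w hw (by omega)
        have h7 : decide (Mk L T r (act T (w ++ u) Y)) = true := by simpa using h5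
        rw [h7] at h6
        exact List.mem_cons_of_mem _ h6
    · exact ok_mono (fun y hy => List.mem_cons_of_mem _ hy) (h2 x hx)

theorem mkP_iff (hD : Dec L T a Y) {r : ℕ} {u : List ℕ} (hu : Wd L u) (b : Bool) :
    MkP L T Y a r u b ↔ (b = true ↔ Mk L T r (act T u Y)) := by
  classical
  constructor
  · rintro ⟨Lst, h1, c, h2⟩
    exact valid_sound hD h1 c u b h2
  · intro h
    obtain ⟨Lst, h1, h2⟩ := valid_complete hD (r := r) _ u hu rfl
    refine ⟨Lst, h1, col L T r (act T u Y), ?_⟩
    have h3 : b = decide (Mk L T r (act T u Y)) := by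
      cases b
      · have : ¬ Mk L T r (act T u Y) := fun h4 => by
          have := h.2 h4
          cases this
        simp [this]
      · have := h.1 rfl
        simp [this]
    rw [h3]
    exact h2

theorem selP_iff (hD : Dec L T a Y) (r : ℕ) (u w : List ℕ) (hu : Wd L u) :
    SelP L T Y (a, r, u, w) ↔ w = wsel L T r (act T u Y) := by
  obtain ⟨W1, W2, h1, h2, h3⟩ := wsel_spec (L := L) (T := T) r (act T u Y)
  have hW1 : ∀ v ∈ W1, Wd L v := by
    intro v hv
    have : v ∈ WL L r := by
      rw [h1]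
      exact List.mem_append_left _ hv
    exact (mem_WL.1 this).1
  have hsel : Wd L (wsel L T r (act T u Y)) := (mem_WL.1 (wsel_mem r _)).1
  have hget : (WL L r)[W1.length]? = some (wsel L T r (act T u Y)) := by
    rw [h1, List.getElem?_append_right le_rfl]
    simp
  have hget' : ∀ i < W1.length, (WL L r)[i]? = W1[i]? := by
    intro i hi
    rw [h1, List.getElem?_append_left hi]
  constructor
  · rintro ⟨j, h4, h5, h6⟩
    simp only at h4 h5 h6
    rcases lt_trichotomy j W1.length with hj | hj | hj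
    · exfalso
      rw [hget' j hj] at h4
      have h7 : w ∈ W1 := List.mem_of_getElem? h4
      rw [mkP_iff hD (wd_append (hW1 w h7) hu), act_append] at h5
      exact h3 w h7 (h5.1 rfl)
    · rw [hj, hget] at h4
      exact (Option.some.inj h4).symm
    · exfalso
      obtain ⟨v, h7, h8⟩ := h6 _ hj
      rw [hget] at h7
      have h9 := Option.some.inj h7
      subst h9
      rw [mkP_iff hD (wd_append hsel hu), act_append] at h8
      have := h8.2 h2
      cases this
  · rintro rfl
    refine ⟨W1.length, hget, ?_, fun i hi => ?_⟩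
    · rw [mkP_iff hD (wd_append hsel hu), act_append]
      exact ⟨fun _ => h2, fun _ => rfl⟩
    · obtain ⟨v, hv⟩ : ∃ v, W1[i]? = some v := ⟨W1[i], List.getElem?_eq_getElem hi⟩
      have h7 : v ∈ W1 := List.mem_of_getElem? hv
      refine ⟨v, by rw [hget' i hi]; exact hv, ?_⟩
      simp only
      rw [mkP_iff hD (wd_append (hW1 v h7) hu), act_append]
      constructor
      · intro h
        cases h
      · intro h
        exact absurd h (h3 v h7)

end correct

end Pool.Agent.Q38.ZD

namespace Pool.Agent.Q38.ZD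

open Pool.Agent.Q216.ZD

/-- The selection of markers is semi-decidable. -/
theorem t_SEL (h : S_ACT) : S_SEL := by
  intro ps L T hA
  exact ⟨SelP L T, us_SelP (h ps L T hA), fun a Y hD r u w hu => selP_iff hD r u w hu⟩

end Pool.Agent.Q38.ZD
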