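import Pool.Agent.Q216.ZD.Base

set_option autoImplicit false

/-!
# Project ZD (helper216), helper38: semi-decidability helpers (words, evaluation, membership)
-/

namespace Pool.Agent.Q38.ZD

open Encodable Pool.Agent.Helper227 Pool.Agent.H548R2.Post
open Nat.Partrec (Code)
open Pool.Agent.Q216.ZD
open Pool.Agent.TH769.TP (Via lab Unb)

attribute [local fun_prop] Primrec
attribute [local fun_prop] Primrec.id Primrec.const Primrec.comp Primrec.pair Primrec.fst Primrec.snd

section basic

variable {α β : Type} [Primcodable α] [Primcodable β]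

theorem pg_append {f g : α → List β} (hf : Primrec f) (hg : Primrec g) :
    Primrec fun a => f a ++ g a := Primrec.list_append.comp hf hg

theorem pg_length {f : α → List β} (hf : Primrec f) :
    Primrec fun a => (f a).length := Primrec.list_length.comp hf

theorem pg_encode {f : α → β} (hf : Primrec f) : Primrec fun a => encode (f a) :=
  Primrec.encode.comp hf

theorem pg_getElem? {f : α → List β} {g : α → ℕ} (hf : Primrec f) (hg : Primrec g) :
    Primrec fun a => (f a)[g a]? := Primrec.list_getElem?.comp hf hg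

theorem pg_not {f : α → Bool} (hf : Primrec f) : Primrec fun a => !(f a) :=
  (Primrec.dom_bool not).comp hf

theorem pg_mem {f : α → β} {g : α → List β} (hf : Primrec f) (hg : Primrec g) :
    PrimrecPred fun a => f a ∈ g a :=
  (PP.ex_mem (α := α) (p := fun a b => b = f a)
    (Primrec.eq.comp Primrec.snd (hf.comp Primrec.fst)) hg).of_eq (by simp)

theorem pg_eq {f g : α → β} (hf : Primrec f) (hg : Primrec g) : PrimrecPred fun a => f a = g a :=
  Primrec.eq.comp hf hg

/-- being a value of a program -/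
theorem s1_eval {a : α → Code} {n v : α → ℕ} (ha : Primrec a) (hn : Primrec n) (hv : Primrec v) :
    S1 fun x => v x ∈ (a x).eval (n x) := by
  refine ⟨fun x k => Code.evaln k (a x) (n x) = some (v x), ?_, ?_, ?_⟩
  · exact Primrec.eq.comp (Code.primrec_evaln.comp
      ((Primrec.snd.pair (ha.comp Primrec.fst)).pair (hn.comp Primrec.fst)))
      (Primrec.option_some.comp (hv.comp Primrec.fst))
  · intro x m k h hm
    exact Code.evaln_mono h hm
  · intro x
    exact Code.evaln_complete

end basic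

/-- the lists of words are primitive recursive -/
theorem pf_WL (L : ℕ) : Primrec fun r : ℕ => WL L r := by
  have hF : Primrec₂ fun (_ : ℕ) (W : List (List ℕ)) =>
      [] :: W.flatMap fun w => (List.range L).map fun c => c :: w := by
    refine Primrec.list_cons.comp (Primrec.const []) ?_
    refine Primrec.list_flatMap Primrec.snd ?_
    refine Primrec.list_map (Primrec.const _) ?_
    exact Primrec.list_cons.comp Primrec.snd (Primrec.snd.comp Primrec.fst)
  have h1 : ∀ r, WL L r = Nat.rec (motive := fun _ => List (List ℕ)) [[]]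
      (fun _ W => [] :: W.flatMap fun w => (List.range L).map fun c => c :: w) r := by
    intro r
    induction r with
    | zero => rfl
    | succ r ih => simp only [WL, ih]
  exact (Primrec.nat_rec₁ [[]] hF).of_eq fun r => (h1 r).symm

theorem pp_Wd (L : ℕ) {α : Type} [Primcodable α] {u : α → List ℕ} (hu : Primrec u) :
    PrimrecPred fun a => Wd L (u a) :=
  PP.all_mem (α := α) (p := fun _ c => c < L)
    (Primrec.nat_lt.comp Primrec.snd (Primrec.const L)) hu

theorem pre_eq_iff {X Y : R} {l : ℕ} : pre X l = pre Y l ↔ ∀ j < l, X j = Y j := by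
  constructor
  · intro h j hj
    have h1 : (pre X l)[j]? = (pre Y l)[j]? := by rw [h]
    rw [pre_getElem? _ _ _ hj, pre_getElem? _ _ _ hj] at h1
    exact Option.some.inj h1
  · intro h
    unfold pre
    exact List.map_congr_left fun j hj => h j (List.mem_range.1 hj)

theorem eq_pre_iff {X : R} {s : List Bool} :
    (∀ i < s.length, ∃ b, s[i]? = some b ∧ X i = b) ↔ s = pre X s.length := by
  constructor
  · intro h
    apply List.ext_getElem?
    intro i
    by_cases hi : i < s.length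
    · obtain ⟨b, h1, h2⟩ := h i hi
      rw [h1, pre_getElem? _ _ _ hi, h2]
    · rw [pre_getElem?_none _ _ _ (by omega), List.getElem?_eq_none (by omega)]
  · intro h i hi
    refine ⟨X i, ?_, rfl⟩
    rw [h, pre_getElem? _ _ _ hi]

section rel

variable (L : ℕ) (T : ℕ → R → R)

/-- the digit `j` of `act T u X` is `b` -/
def Dg (X : R) (u : List ℕ) (j : ℕ) (b : Bool) : Prop := Wd L u ∧ act T u X j = b

/-- the colour of `act T u X` is `c` -/
def ColP (X : R) (a : Code) (r : ℕ) (u : List ℕ) (c : ℕ) : Prop :=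
  ∃ s : List Bool, encode s = c ∧ (∀ i < s.length, ∃ b, s[i]? = some b ∧ Dg L T X u i b) ∧
    (∀ w ∈ WL L r, 1 ∈ a.eval (encode w) ∨ (0 ∈ a.eval (encode w) ∧
      ∃ j, j < s.length ∧ ∃ b, Dg L T X (w ++ u) j b ∧ Dg L T X u j (!b))) ∧
    (∀ l < s.length, ∃ w ∈ WL L r, 0 ∈ a.eval (encode w) ∧
      ∀ j < l, ∃ b, Dg L T X (w ++ u) j b ∧ Dg L T X u j b)

/-- a correct entry of the list of guesses -/
def OkP (X : R) (a : Code) (r : ℕ) (Lst : List (List ℕ × ℕ × Bool)) (x : List ℕ × ℕ × Bool) : Prop :=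
  ColP L T X a r x.1 x.2.1 ∧ Wd L x.1 ∧
    ((x.2.2 = true ∧ ∀ w ∈ WL L r, ∃ c', ColP L T X a r (w ++ x.1) c' ∧
        (x.2.1 ≤ c' ∨ (w ++ x.1, c', false) ∈ Lst)) ∨
      (x.2.2 = false ∧ ∃ w ∈ WL L r, ∃ c', c' < x.2.1 ∧ ColP L T X a r (w ++ x.1) c' ∧
        (w ++ x.1, c', true) ∈ Lst))

/-- a correct list of guesses -/
def ValP (X : R) (a : Code) (r : ℕ) (Lst : List (List ℕ × ℕ × Bool)) : Prop :=
  ∀ x ∈ Lst, OkP L T X a r Lst x

/-- `act T u X` is a marker (`b = true`) or not (`b = false`) -/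
def MkP (X : R) (a : Code) (r : ℕ) (u : List ℕ) (b : Bool) : Prop :=
  ∃ Lst, ValP L T X a r Lst ∧ ∃ c, (u, c, b) ∈ Lst

/-- the relation of `S_SEL` -/
def SelP (X : R) (x : Code × ℕ × List ℕ × List ℕ) : Prop :=
  ∃ j : ℕ, (WL L x.2.1)[j]? = some x.2.2.2 ∧ MkP L T X x.1 x.2.1 (x.2.2.2 ++ x.2.2.1) true ∧
    ∀ i < j, ∃ w, (WL L x.2.1)[i]? = some w ∧ MkP L T X x.1 x.2.1 (w ++ x.2.2.1) false

end rel

section us

variable {L : ℕ} {T : ℕ → R → R}

theorem us_Dg (h : US fun X (x : List ℕ × ℕ × Bool) => Wd L x.1 ∧ act T x.1 X x.2.1 = x.2.2)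
    {α : Type} [Primcodable α] {u : α → List ℕ} {j : α → ℕ} {b : α → Bool} (hu : Primrec u)
    (hj : Primrec j) (hb : Primrec b) : US fun X a => Dg L T X (u a) (j a) (b a) :=
  h.comp (hu.pair (hj.pair hb))

theorem us_ColP (h : US fun X (x : List ℕ × ℕ × Bool) => Wd L x.1 ∧ act T x.1 X x.2.1 = x.2.2) :
    US fun X (x : Code × ℕ × List ℕ × ℕ) => ColP L T X x.1 x.2.1 x.2.2.1 x.2.2.2 := by
  have hWL := pf_WL L
  unfold ColP
  refine US.ex (P := fun X (x : Code × ℕ × List ℕ × ℕ) (s : List Bool) => _) ?_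
  refine US.and (US.of_prim (pg_eq ?_ ?_)) (US.and ?_ (US.and ?_ ?_))
  · exact pg_encode Primrec.snd
  · fun_prop
  · refine US.all_lt (P := fun X (y : (Code × ℕ × List ℕ × ℕ) × List Bool) (i : ℕ) => _) ?_
      (pg_length Primrec.snd)
    refine US.ex (P := fun X (z : ((Code × ℕ × List ℕ × ℕ) × List Bool) × ℕ) (b : Bool) => _) ?_
    refine US.and (US.of_prim (pg_eq (pg_getElem? ?_ ?_) (Primrec.option_some.comp ?_)))
      (us_Dg h ?_ ?_ ?_) <;> fun_prop
  · refine US.all_mem (P := fun X (y : (Code × ℕ × List ℕ × ℕ) × List Bool) (w : List ℕ) => _) ?_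
      (hWL.comp (by fun_prop))
    refine US.or (US.of_s1 (s1_eval ?_ (pg_encode ?_) ?_)) (US.and
      (US.of_s1 (s1_eval ?_ (pg_encode ?_) ?_)) ?_)
    · fun_prop
    · fun_prop
    · fun_prop
    · fun_prop
    · fun_prop
    · fun_prop
    · refine US.ex (P := fun X (z : ((Code × ℕ × List ℕ × ℕ) × List Bool) × List ℕ) (j : ℕ) => _) ?_
      refine US.and (US.of_prim (Primrec.nat_lt.comp ?_ (pg_length ?_))) ?_
      · fun_prop
      · fun_prop
      · refine US.ex (P := fun X (z : (((Code × ℕ × List ℕ × ℕ) × List Bool) × List ℕ) × ℕ)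
          (b : Bool) => _) ?_
        refine US.and (us_Dg h (pg_append ?_ ?_) ?_ ?_) (us_Dg h ?_ ?_ (pg_not ?_)) <;> fun_prop
  · refine US.all_lt (P := fun X (y : (Code × ℕ × List ℕ × ℕ) × List Bool) (l : ℕ) => _) ?_
      (pg_length Primrec.snd)
    refine US.ex_mem (P := fun X (z : ((Code × ℕ × List ℕ × ℕ) × List Bool) × ℕ)
      (w : List ℕ) => _) ?_ (hWL.comp (by fun_prop))
    refine US.and (US.of_s1 (s1_eval ?_ (pg_encode ?_) ?_)) ?_
    · fun_prop
    · fun_prop
    · fun_prop
    · refine US.all_lt (P := fun X (z : (((Code × ℕ × List ℕ × ℕ) × List Bool) × ℕ) × List ℕ)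
        (j : ℕ) => _) ?_ (by fun_prop)
      refine US.ex (P := fun X (z : ((((Code × ℕ × List ℕ × ℕ) × List Bool) × ℕ) × List ℕ) × ℕ)
          (b : Bool) => _) ?_
      refine US.and (us_Dg h (pg_append ?_ ?_) ?_ ?_) (us_Dg h ?_ ?_ ?_) <;> fun_prop

end us

end Pool.Agent.Q38.ZD
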